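import Pool.Agent.helper66.FB.Spec2
import Pool.Agent.helper90.FN.Goals2
import Pool.Agent.helper64.FB.ML
import Pool.Agent.helper72.HP.A7
import Pool.Agent.helper72.HP.A9
import Pool.Agent.helper72.HP.M2

/-!
Part B of MP_5ae64c_pr, module TT: the statement `TS_stmt` gives tightness of the distance of a
uniform vertex to the root along the sequence.
-/

set_option autoImplicit false

open scoped BigOperators Topology
open Filter MeasureTheory

namespace Pool.Agent.helper66.FB

open Finset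
open Pool.Agent.helper72.UT (IsFor dep pth rt fors Reg lz)
open Pool.Agent.helper20.HP
open Pool.Agent.helper90.FN (EF glue dn sk avJ Hit)

theorem TT_EF_mono {V : Type} [Fintype V] [DecidableEq V] (G : SimpleGraph V) (B : Finset V)
    (F F' : (V → V) → ℝ) (h : ∀ f, F f ≤ F' f) : EF G B F ≤ EF G B F' := by
  unfold EF
  exact div_le_div_of_nonneg_right (Finset.sum_le_sum fun f _ => h f) (Nat.cast_nonneg _)

/-- the statement for sequences whose graphs have at least two vertices -/
theorem TT_main (hTS : TS_stmt) (S : Setup) (h2 : ∀ k, 2 ≤ Fintype.card (S.V k)) : Tight S := by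
  intro ε hε
  choose K hK using fun k => lazyHW_exists (S.G k) (S.conn k) (S.trans k) (h2 k)
  choose d hd using fun k => M2_reg (S.G k) (S.conn k) (S.trans k) (h2 k)
  obtain ⟨C, hC, hmain⟩ := hTS (max S.θ 1)
  set s : ℕ := ⌈C / ε⌉₊ + 1 with hs
  have hs1 : 1 ≤ s := by omega
  have hsR : (1 : ℝ) ≤ s := by exact_mod_cast hs1
  have hsC : C / s ≤ ε := by
    have h1 : C / ε ≤ (⌈C / ε⌉₊ : ℝ) := Nat.le_ceil _
    have h3 : (s : ℝ) = (⌈C / ε⌉₊ : ℝ) + 1 := by rw [hs]; push_cast; ring
    have h4 : C / ε ≤ s := by rw [h3]; linarith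
    rw [div_le_iff₀ hε] at h4
    rw [div_le_iff₀ (by linarith)]
    linarith
  refine ⟨C * (s : ℝ) ^ 41, by positivity, ?_⟩
  have hcard : Tendsto (fun k => (Fintype.card (S.V k) : ℝ)) atTop atTop :=
    tendsto_natCast_atTop_atTop.comp S.card
  have hsq : Tendsto (fun k => Real.sqrt (Fintype.card (S.V k) : ℝ)) atTop atTop :=
    Real.tendsto_sqrt_atTop.comp hcard
  filter_upwards [par_eventually S K hK, tmix_small S (1 / (4 * (s : ℝ) ^ 64)) (by positivity),
    hsq.eventually_ge_atTop 2, hcard.eventually_ge_atTop 1] with k hPar htm hsq2 hc1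
  have hKp := M2_kernel (hd k) (K k) (hK k)
  have hstd : Std (S.G k) (d k) (K k) (max S.θ 1) (tmix (S.G k) + 1) :=
    ⟨hd k, hKp, hPar, fun x y => ML S K hK k x y (h2 k)⟩
  set n : ℝ := (Fintype.card (S.V k) : ℝ) with hn
  have hLs : (Nat.sqrt (Fintype.card (S.V k)) : ℝ) ≤ Real.sqrt n := by
    rw [hn]; exact Real.nat_sqrt_le_real_sqrt
  have hsL : Real.sqrt n < (Nat.sqrt (Fintype.card (S.V k)) : ℝ) + 1 := by
    rw [Real.sqrt_lt' (by positivity)]
    have := Nat.lt_succ_sqrt (Fintype.card (S.V k))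
    have h3 : n < ((Nat.sqrt (Fintype.card (S.V k)) : ℝ) + 1) *
        ((Nat.sqrt (Fintype.card (S.V k)) : ℝ) + 1) := by
      rw [hn]; exact_mod_cast this
    nlinarith
  have hsmall : s ^ 64 * (tmix (S.G k) + 1) ≤ Nat.sqrt (Fintype.card (S.V k)) := by
    have e1 : n ^ (1 / 2 - min S.α (1 / 4)) ≤ Real.sqrt n := by
      rw [Real.sqrt_eq_rpow]
      refine Real.rpow_le_rpow_of_exponent_le hc1 ?_
      have : 0 ≤ min S.α (1 / 4) := le_min S.α_pos.le (by norm_num)
      linarith
    have e2 : ((tmix (S.G k) + 1 : ℕ) : ℝ) ≤ 1 / (4 * (s : ℝ) ^ 64) * Real.sqrt n :=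
      htm.trans (mul_le_mul_of_nonneg_left e1 (by positivity))
    have e3 : (s : ℝ) ^ 64 * ((tmix (S.G k) + 1 : ℕ) : ℝ) ≤ Real.sqrt n / 4 := by
      calc (s : ℝ) ^ 64 * ((tmix (S.G k) + 1 : ℕ) : ℝ)
          ≤ (s : ℝ) ^ 64 * (1 / (4 * (s : ℝ) ^ 64) * Real.sqrt n) :=
            mul_le_mul_of_nonneg_left e2 (by positivity)
        _ = Real.sqrt n / 4 := by
            have : (s : ℝ) ^ 64 ≠ 0 := by positivity
            field_simp
    have e4 : (s : ℝ) ^ 64 * ((tmix (S.G k) + 1 : ℕ) : ℝ) ≤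
        (Nat.sqrt (Fintype.card (S.V k)) : ℝ) := by linarith
    exact_mod_cast e4
  have key := hmain (S.V k) (S.G k) (d k) (K k) (tmix (S.G k) + 1) hstd s (S.o k) hs1 hsmall
  have hC0 : 0 ≤ C * (s : ℝ) ^ 41 := by positivity
  refine le_trans (TT_EF_mono _ _ _ _ fun f => ?_) (key.trans ?_)
  · refine Finset.sum_le_sum fun v _ => ?_
    unfold ind
    split_ifs with h1 h3 h3
    · exact le_refl _
    · exact absurd (lt_of_le_of_lt (mul_le_mul_of_nonneg_left hLs hC0) h1) h3
    · exact zero_le_one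
    · exact le_refl _
  · exact mul_le_mul_of_nonneg_right hsC (by positivity)

theorem TT (hTS : TS_stmt) : ∀ S : Setup, Tight S := by
  intro S ε hε
  obtain ⟨N, hN⟩ := eventually_atTop.1 (S.card.eventually_ge_atTop 2)
  have hsh : Tendsto (fun k : ℕ => k + N) atTop atTop := tendsto_add_atTop_nat N
  set S' : Setup :=
    { V := fun k => S.V (k + N)
      ft := fun k => S.ft (k + N)
      de := fun k => S.de (k + N)
      G := fun k => S.G (k + N)
      conn := fun k => S.conn (k + N)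
      trans := fun k => S.trans (k + N)
      card := S.card.comp hsh
      θ := S.θ
      A1 := fun k => S.A1 (k + N)
      α := S.α
      α_pos := S.α_pos
      A2 := S.A2.comp hsh
      o := fun k => S.o (k + N) } with hS'
  obtain ⟨Λ, hΛ, hev⟩ := TT_main hTS S' (fun k => hN (k + N) (Nat.le_add_left _ _)) ε hε
  refine ⟨Λ, hΛ, ?_⟩
  obtain ⟨M, hMM⟩ := eventually_atTop.1 hev
  refine eventually_atTop.2 ⟨M + N, fun k hk => ?_⟩
  obtain ⟨j, rfl⟩ : ∃ j, k = j + N := ⟨k - N, by omega⟩
  exact hMM j (by omega)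

/-- the same for the definition in `helper90.FN.Goals2` -/
theorem TT_FN (hTS : TS_stmt) : ∀ S : Setup, Pool.Agent.helper90.FN.Tight S := fun S => TT hTS S

end Pool.Agent.helper66.FB
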